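import Pool.Agent.H812R2.PI.LPD
import Pool.Agent.H811R3.PS.TPK

/-!
Powers of unimodular irreducible Pisot matrices are unimodular irreducible Pisot matrices
(`PisotMat` of `H812R2`), from `pk_holds` of `H811R3` (helper267).
-/

set_option autoImplicit false

namespace Pool.Agent.TH100.Pisot
open Pool.Agent.H812R2.PI Polynomial

theorem pisotMat_pow {d : ℕ} (M : Matrix (Fin d) (Fin d) ℤ) (hnn : ∀ i j, 0 ≤ M i j)
    (hM : PisotMat M) (k : ℕ) (hk : 1 ≤ k) : PisotMat (M ^ k) := by
  obtain ⟨hirr, hdet, lam, hlam, hroot, hoth⟩ := hM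
  have hdet' : (M ^ k).det = 1 ∨ (M ^ k).det = -1 := by
    rw [Matrix.det_pow]
    rcases hdet with h | h
    · left; rw [h, one_pow]
    · rw [h]
      exact neg_one_pow_eq_or ℤ k
  have hd : 2 ≤ d := by
    rcases Nat.lt_or_ge d 2 with h | h
    · exfalso
      interval_cases d
      · simp [Matrix.charpoly, Polynomial.IsRoot] at hroot
      · rw [Matrix.det_fin_one] at hdet
        simp only [Matrix.charpoly, Matrix.det_fin_one, Matrix.charmatrix_apply_eq, Matrix.map_apply,
          Polynomial.IsRoot, eval_sub, eval_X, eval_C] at hroot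
        have h1 : (lam : ℂ) = ((M 0 0 : ℤ) : ℂ) := sub_eq_zero.mp hroot
        have h2 : lam = ((M 0 0 : ℤ) : ℝ) := by exact_mod_cast h1
        rcases hdet with h | h
        · rw [h] at h2; norm_num at h2; linarith
        · rw [h] at h2; norm_num at h2; linarith
    · exact h
  have hpis : Pool.Agent.H811R3.PS.Pis M lam := by
    refine ⟨hnn, hirr, hlam, ?_, fun μ hμ hne => (hoth μ hμ hne).2⟩
    have h1 : (M.map (Int.castRingHom ℂ)) =
        (M.map (Int.castRingHom ℝ)).map (algebraMap ℝ ℂ) := by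
      ext i j
      simp
    have h2 : ((M.map (Int.castRingHom ℝ)).charpoly.map (algebraMap ℝ ℂ)).IsRoot (lam : ℂ) := by
      rw [← Matrix.charpoly_map, ← h1]
      exact hroot
    rw [Polynomial.IsRoot, Polynomial.eval_map_algebraMap] at h2
    have h3 : aeval ((algebraMap ℝ ℂ) lam) (M.map (Int.castRingHom ℝ)).charpoly = 0 := h2
    rw [Polynomial.aeval_algebraMap_apply] at h3
    have h4 := (algebraMap ℝ ℂ).injective (h3.trans (map_zero _).symm)
    simpa [Polynomial.IsRoot] using h4
  have hp := Pool.Agent.H811R3.PS.pk_holds d hd M lam hpis k hk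
  refine ⟨hp.irr, hdet', lam ^ k, hp.one_lt, ?_, ?_⟩
  · have := Pool.Agent.H811R3.PS.TPK.root_real (M ^ k) (lam ^ k) hp.root
    exact this
  · intro μ hμ hne
    refine ⟨?_, hp.others μ hμ hne⟩
    rw [norm_pos_iff]
    rintro rfl
    have h5 : ((M ^ k).map (Int.cast : ℤ → ℂ)).det = 0 := by
      have h6 : (((M ^ k).map (Int.cast : ℤ → ℂ)).charpoly).eval 0 = 0 := hμ
      rw [← Polynomial.coeff_zero_eq_eval_zero, Matrix.charpoly] at h6
      have h7 := Matrix.det_eq_sign_charpoly_coeff ((M ^ k).map (Int.cast : ℤ → ℂ))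
      rw [h7, Matrix.charpoly, h6, mul_zero]
    have h8 : ((M ^ k).map (Int.cast : ℤ → ℂ)).det = (((M ^ k).det : ℤ) : ℂ) := by
      have := (RingHom.map_det (Int.castRingHom ℂ) (M ^ k)).symm
      simpa [RingHom.mapMatrix_apply] using this
    rw [h8] at h5
    have h9 : (M ^ k).det = 0 := by exact_mod_cast h5
    rcases hdet' with h | h <;> rw [h] at h9 <;> norm_num at h9

end Pool.Agent.TH100.Pisot
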