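import Pool.Agent.TH100.Pisot.Few

/-!
An absorbing substitution: all compositions which contain a large power of it satisfy the Pisot
substitution conjecture.
-/

set_option autoImplicit false

namespace Pool.Agent.TH100.Pisot
open Pool.Agent.H812R2.PI
open scoped BigOperators

variable {d : ℕ} {M : Matrix (Fin d) (Fin d) ℤ}

/-- the incidence matrix is a positive power of `M` and the prefixes of the images are bounded -/
def Fac (P : PD M) (B : ℝ) (ρ : Fin d → List (Fin d)) : Prop :=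
  (∃ i, 1 ≤ i ∧ inc ρ = M ^ i) ∧ ∀ a k, P.N (rv (ab ((ρ a).take k))) ≤ B

theorem rho_pow_le (P : PD M) {i : ℕ} (hi : 1 ≤ i) : P.rho ^ i ≤ P.rho :=
  pow_le_of_le_one P.rho_nonneg P.rho_lt.le (by omega)

theorem fac_prefix (P : PD M) (l : List (Fin d → List (Fin d))) (B : ℝ) (hB0 : 0 ≤ B)
    (hl : ∀ τ ∈ l, Fac P B τ) :
    ∀ a k, P.N (rv (ab ((compList l a).take k))) ≤ B / (1 - P.rho) + P.N (rv (ev a)) := by
  intro a
  have hr : 0 < 1 - P.rho := by linarith [P.rho_lt]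
  have hBr : 0 ≤ B / (1 - P.rho) := div_nonneg hB0 hr.le
  have hNe := P.N_nonneg (rv (ev a))
  induction l with
  | nil =>
    intro k
    simp only [compList]
    cases k with
    | zero => simp only [List.take_zero, ab_nil, rv_zero, N_zero]; positivity
    | succ k => simp only [List.take_succ_cons, List.take_nil, ab_single]; linarith
  | cons τ l ih =>
    have ih' := ih (fun τ' h => hl τ' (List.mem_cons_of_mem _ h))
    obtain ⟨⟨i0, hi0, h1⟩, h2⟩ := hl τ (List.mem_cons_self ..)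
    intro k
    simp only [compList, comp]
    rcases DBd_take_ext τ (compList l a) k with h | ⟨i, j, b, h⟩
    · rw [h, ab_nil, rv_zero, N_zero]; positivity
    · rw [h, ab_append, ab_ext, rv_add, h1]
      have h3 := P.N_add (rv ((M ^ i0).mulVec (ab ((compList l a).take i))))
        (rv (ab ((τ b).take j)))
      have h4 := N_pow_mulVec P i0 (ab ((compList l a).take i))
      have h4' : P.rho ^ i0 * P.N (rv (ab ((compList l a).take i))) ≤
          P.rho * P.N (rv (ab ((compList l a).take i))) :=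
        mul_le_mul_of_nonneg_right (rho_pow_le P hi0) (P.N_nonneg _)
      have h5 := mul_le_mul_of_nonneg_left (ih' i) P.rho_nonneg
      have h6 := h2 b j
      have h7 : P.rho * (B / (1 - P.rho)) + B = B / (1 - P.rho) := by
        field_simp; ring
      have h8 : P.rho * P.N (rv (ev a)) ≤ P.N (rv (ev a)) := by
        nlinarith [P.rho_lt]
      linarith

theorem fac_inc (P : PD M) (B : ℝ) (l : List (Fin d → List (Fin d)))
    (hl : ∀ τ ∈ l, Fac P B τ) : ∃ N, l.length ≤ N ∧ inc (compList l) = M ^ N := by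
  induction l with
  | nil => exact ⟨0, le_rfl, by rw [pow_zero]; exact JComp_inc_id⟩
  | cons τ l ih =>
    obtain ⟨N, hN, h⟩ := ih (fun τ' h => hl τ' (List.mem_cons_of_mem _ h))
    obtain ⟨⟨i, hi, h1⟩, -⟩ := hl τ (List.mem_cons_self ..)
    refine ⟨i + N, by rw [List.length_cons]; omega, ?_⟩
    simp only [compList]
    rw [inc_comp, h1, h, pow_add]

theorem fac_ne_nil (P : PD M) (B : ℝ) (l : List (Fin d → List (Fin d)))
    (hl : ∀ τ ∈ l, Fac P B τ) (a : Fin d) : compList l a ≠ [] := by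
  obtain ⟨N, -, h⟩ := fac_inc P B l hl
  rcases Nat.eq_zero_or_pos N with h0 | h0
  · intro hnil
    rw [h0, pow_zero] at h
    have h1 := congrFun (congrFun h a) a
    simp [inc, hnil] at h1
  · exact JList_ne_nil (P.pow N h0) _ h a

theorem fac_ovTo (P : PD M) (l : List (Fin d → List (Fin d))) (B D : ℝ) (hD0 : 0 ≤ D)
    (hl : ∀ τ ∈ l, Fac P B τ) (hD : 2 * B ≤ (1 - P.rho) * D) : P.OvTo (compList l) D D := by
  induction l with
  | nil => exact ovTo_id P D
  | cons τ l ih =>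
    have ih' := ih (fun τ' h => hl τ' (List.mem_cons_of_mem _ h))
    obtain ⟨⟨i, hi, h1⟩, h2⟩ := hl τ (List.mem_cons_self ..)
    have h3 : P.OvTo τ D D := by
      have h4 := ovTo_base (P.pow i hi) τ h1 B D h2
      have h5 : P.rho ^ i * D ≤ P.rho * D := mul_le_mul_of_nonneg_right (rho_pow_le P hi) hD0
      have h6 : (P.pow i hi).rho * D + 2 * B ≤ D := by
        change P.rho ^ i * D + 2 * B ≤ D
        linarith
      have h7 := ovTo_mono (P.pow i hi) τ D _ D h4 h6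
      intro a b v hv hO
      exact h7 a b v hv hO
    exact ovTo_comp P τ (compList l) D D D ih' h3

theorem absorbing {m : ℕ} (M : Matrix (Fin (m+1)) (Fin (m+1)) ℤ)
    (hnn : ∀ i j, 0 ≤ M i j) (hM : PisotMat M) :
    ∃ (n : ℕ) (τ : Fin (m+1) → List (Fin (m+1))), 1 ≤ n ∧ inc τ = M ^ n ∧
      ∀ T : ℕ, ∃ K : ℕ, ∀ k ≥ K, ∀ l₁ l₂ : List (Fin (m+1) → List (Fin (m+1))),
        (∀ ρ ∈ l₁ ++ l₂, ∃ i, 1 ≤ i ∧ i ≤ T ∧ inc ρ = M ^ i) →
        (∃ N, 1 ≤ N ∧ inc (compList (l₁ ++ List.replicate k τ ++ l₂)) = M ^ N) ∧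
        SemiConjToral (compList (l₁ ++ List.replicate k τ ++ l₂)) := by
  classical
  obtain ⟨lam, u, hlam, hu, husum⟩ := exists_u M hnn hM
  obtain ⟨P, -, -⟩ := exists_PD M hnn hM lam hlam u hu husum
  have hdet : IsUnit M.det := by
    rcases hM.2.1 with h | h <;> rw [h] <;> simp
  have hr : 0 < 1 - P.rho := by linarith [P.rho_lt]
  obtain ⟨B, hB0, hgood⟩ := exists_good M hnn P
  obtain ⟨n0, hn0, hgD⟩ := hgood (4 * B + 1)
  have hrho : ∀ᶠ n : ℕ in Filter.atTop, P.rho ^ n ≤ 1 / 2 := by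
    have h := tendsto_pow_atTop_nhds_zero_of_lt_one P.rho_nonneg P.rho_lt
    exact (h.eventually (gt_mem_nhds (show (0:ℝ) < 1/2 by norm_num))).mono fun n hn => hn.le
  obtain ⟨n1, hn1⟩ := Filter.eventually_atTop.mp hrho
  obtain ⟨n, hn⟩ : ∃ n : ℕ, n = max n0 n1 := ⟨_, rfl⟩
  have hn00 : n0 ≤ n := by rw [hn]; exact le_max_left _ _
  have hn01 : n1 ≤ n := by rw [hn]; exact le_max_right _ _
  have h1n : 1 ≤ n := le_trans hn0 hn00
  obtain ⟨τ, hτ, hτB, hτH⟩ := hgD n hn00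
  refine ⟨n, τ, h1n, hτ, fun T => ?_⟩
  -- bound for the factors
  obtain ⟨BF, hBF⟩ : ∃ BF : ℝ, BF = B + ∑ i ∈ Finset.range (T + 1),
      P.c * ∑ a, ∑ b, ((M ^ i) a b : ℝ) := ⟨_, rfl⟩
  have hterm : ∀ i ∈ Finset.range (T + 1), 0 ≤ P.c * ∑ a, ∑ b, ((M ^ i) a b : ℝ) := by
    intro i _
    refine mul_nonneg P.c_pos.le (Finset.sum_nonneg fun a _ => Finset.sum_nonneg fun b _ => ?_)
    exact_mod_cast GFin_pow_nonneg M hnn i a b
  have hBF0 : 0 ≤ BF := by
    rw [hBF]
    exact add_nonneg hB0 (Finset.sum_nonneg hterm)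
  have hBFB : B ≤ BF := by
    rw [hBF]
    linarith [Finset.sum_nonneg hterm]
  have hfac : ∀ ρ : Fin (m+1) → List (Fin (m+1)), (∃ i, 1 ≤ i ∧ i ≤ T ∧ inc ρ = M ^ i) →
      Fac P BF ρ := by
    rintro ρ ⟨i, hi1, hiT, hi⟩
    refine ⟨⟨i, hi1, hi⟩, fun a k => ?_⟩
    have h1 := JFin_BT (P.pow i hi1) (GFin_pow_nonneg M hnn i) ρ hi a k
    have h2 := Finset.single_le_sum hterm (Finset.mem_range.2 (Nat.lt_succ_of_le hiT))
    rw [hBF]
    calc _ ≤ _ := h1
      _ ≤ ∑ i ∈ Finset.range (T + 1), P.c * ∑ a, ∑ b, ((M ^ i) a b : ℝ) := h2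
      _ ≤ _ := by linarith
  have hfacτ : Fac P BF τ := ⟨⟨n, h1n, hτ⟩, fun a k => (hτB a k).trans hBFB⟩
  obtain ⟨BS, hBS⟩ : ∃ BS : ℝ, BS = BF / (1 - P.rho) + ∑ a, P.N (rv (ev a)) := ⟨_, rfl⟩
  have hBS0 : 0 ≤ BS := by
    rw [hBS]
    exact add_nonneg (div_nonneg hBF0 hr.le) (Finset.sum_nonneg fun a _ => P.N_nonneg _)
  obtain ⟨D, hD⟩ : ∃ D : ℝ, D = (16 * P.c ^ 2 + 4) * BS + 2 * BF / (1 - P.rho) := ⟨_, rfl⟩
  have hq1 : 0 ≤ 2 * BF / (1 - P.rho) := div_nonneg (by linarith) hr.le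
  have hq2 : 0 ≤ (16 * P.c ^ 2 + 4) * BS := mul_nonneg (by positivity) hBS0
  have hD0 : 0 ≤ D := by rw [hD]; linarith
  have hDBS : (16 * P.c ^ 2 + 4) * BS ≤ D := by rw [hD]; linarith
  have hDBF : 2 * BF ≤ (1 - P.rho) * D := by
    have h1 : 2 * BF / (1 - P.rho) ≤ D := by rw [hD]; linarith
    rw [div_le_iff₀ hr] at h1
    linarith
  -- the block
  have hrn : P.rho ^ n ≤ 1 / 2 := hn1 n hn01
  obtain ⟨K, hK⟩ := hit_of_block (P.pow n h1n) τ hτ B (4 * B + 1) hτB (by
    change 2 * B < (1 - P.rho ^ n) * (4 * B + 1)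
    nlinarith) hτH BF D (by
      change 2 * BF ≤ (1 - P.rho ^ n) * D
      have h1 : P.rho ^ n * D ≤ P.rho * D := mul_le_mul_of_nonneg_right (rho_pow_le P h1n) hD0
      linarith)
  have hblock := hK [] [] (by simp) (by simp)
  rw [List.nil_append, List.append_nil] at hblock
  refine ⟨K + 1, fun k hk l₁ l₂ hl => ?_⟩
  have hl1 : ∀ ρ ∈ l₁, Fac P BF ρ := fun ρ h => hfac ρ (hl ρ (List.mem_append_left _ h))
  have hl2 : ∀ ρ ∈ l₂, Fac P BF ρ := fun ρ h => hfac ρ (hl ρ (List.mem_append_right _ h))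
  have hrep : ∀ j : ℕ, ∀ ρ ∈ List.replicate j τ, Fac P BF ρ := fun j ρ h => by
    rw [List.eq_of_mem_replicate h]
    exact hfacτ
  have hall : ∀ ρ ∈ l₁ ++ List.replicate k τ ++ l₂, Fac P BF ρ := by
    intro ρ h
    rw [List.mem_append, List.mem_append] at h
    rcases h with (h | h) | h
    · exact hl1 ρ h
    · exact hrep k ρ h
    · exact hl2 ρ h
  -- exponent of the incidence matrix
  obtain ⟨N1, -, hN1⟩ := fac_inc P BF l₁ hl1
  obtain ⟨N2, -, hN2⟩ := fac_inc P BF l₂ hl2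
  have hN3 : inc (compList (List.replicate k τ)) = M ^ (n * k) := by
    rw [inc_compList (M ^ n) _ (fun ρ h => by rw [List.eq_of_mem_replicate h]; exact hτ),
      List.length_replicate, ← pow_mul]
  have hinc : inc (compList (l₁ ++ List.replicate k τ ++ l₂)) = M ^ (N1 + n * k + N2) := by
    rw [compList_append, compList_append, inc_comp, inc_comp, hN1, hN2, hN3, ← pow_add, ← pow_add]
  have hnk : n ≤ n * k := Nat.le_mul_of_pos_right n (by omega)
  have hN : n ≤ N1 + n * k + N2 := by omega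
  have hN1' : 1 ≤ N1 + n * k + N2 := le_trans h1n hN
  refine ⟨⟨_, hN1', hinc⟩, ?_⟩
  have hhitk : P.Hit (compList (List.replicate k τ)) D := by
    have h1 : List.replicate k τ = List.replicate (k - K) τ ++ List.replicate K τ := by
      rw [← List.replicate_add]
      congr 1
      omega
    rw [h1, compList_append]
    exact hit_comp_right P _ _ (fac_ne_nil P BF _ (hrep _)) D (fun a b v hv hO =>
      hblock a b v hv hO)
  have hhit : P.Hit (compList (l₁ ++ List.replicate k τ ++ l₂)) D := by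
    rw [compList_append, compList_append, comp_assoc]
    refine hit_comp_right P _ _ (fac_ne_nil P BF l₁ hl1) D ?_
    exact hit_comp_left P _ _ D D (fac_ovTo P l₂ BF D hD0 hl2 hDBF) hhitk
  have hpre : ∀ a j, P.N (rv (ab ((compList (l₁ ++ List.replicate k τ ++ l₂) a).take j))) ≤ BS := by
    intro a j
    refine (fac_prefix P _ BF hBF0 hall a j).trans ?_
    rw [hBS]
    have := Finset.single_le_sum (f := fun a => P.N (rv (ev a)))
      (fun a _ => P.N_nonneg _) (Finset.mem_univ a)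
    linarith
  refine JFin_semi (P.pow _ hN1') (by rw [Matrix.det_pow]; exact hdet.pow _) BS D hBS0
    hDBS (hn1 _ (le_trans hn01 hN)) 1 le_rfl _ (by rw [pow_one]; exact hinc) hpre ?_
  intro a b v hv hO
  exact hhit a b v hv hO

end Pool.Agent.TH100.Pisot
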