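import Pool.Agent.TH100.Pisot.Mix

/-!
Every composition of `n` substitutions with the incidence matrix `M` (unimodular, irreducible, Pisot)
can be changed at a bounded number of places into a substitution with the same incidence matrix
which satisfies the Pisot substitution conjecture.
-/

set_option autoImplicit false

namespace Pool.Agent.TH100.Pisot
open Pool.Agent.H812R2.PI
open scoped BigOperators

/-- substitutions with prefixes in a fixed tube and a coincidence property of any strength -/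
theorem exists_good {m : ℕ} (M : Matrix (Fin (m+1)) (Fin (m+1)) ℤ)
    (hnn : ∀ i j, 0 ≤ M i j) (P : PD M) :
    ∃ B : ℝ, 0 ≤ B ∧ ∀ D : ℝ, ∃ n₀ : ℕ, 1 ≤ n₀ ∧ ∀ n ≥ n₀,
      ∃ s : Fin (m+1) → List (Fin (m+1)), inc s = M ^ n ∧
        (∀ a k, P.N (rv (ab ((s a).take k))) ≤ B) ∧ P.Hit s D := by
  obtain ⟨B1, hB1⟩ := generic_UC M hnn P
  obtain ⟨B, hB⟩ : ∃ B : ℝ, B = max B1 0 := ⟨_, rfl⟩
  have hB0 : 0 ≤ B := by rw [hB]; exact le_max_right _ _
  have hBB1 : B ≥ B1 := by rw [hB]; exact le_max_left _ _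
  refine ⟨P.c * B, mul_nonneg P.c_pos.le hB0, fun D => ?_⟩
  obtain ⟨c, hc, n0, hn0, hgen⟩ := hB1 B hBB1 D
  refine ⟨n0, hn0, fun n hn => ?_⟩
  have h1n : 1 ≤ n := le_trans hn0 hn
  obtain ⟨hfin, hne, hcard⟩ := hgen n hn h1n
  have hnnn : ∀ i j, 0 ≤ (M ^ n) i j := GFin_pow_nonneg M hnn n
  have hSpos := JFin_sum_pos (P.pow n h1n) hnnn
  obtain ⟨s0, hs0, hs0UC⟩ : ∃ s0, s0 ∈ SubSet P.u (M ^ n) B ∧ (P.pow n h1n).UC s0 D := by
    by_contra hcon
    push Not at hcon
    have h1 : {σ | σ ∈ SubSet P.u (M ^ n) B ∧ ¬ (P.pow n h1n).UC σ D} =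
        SubSet P.u (M ^ n) B := by
      ext σ
      exact ⟨fun h => h.1, fun h => ⟨h, hcon σ h⟩⟩
    rw [h1] at hcard
    have h2 : (0:ℝ) < ((SubSet P.u (M ^ n) B).ncard : ℝ) := by
      exact_mod_cast (Set.ncard_pos hfin).mpr hne
    have h3 : Real.exp (-(c * ∑ i, ∑ j, ((M ^ n) i j : ℝ))) < 1 := by
      rw [Real.exp_lt_one_iff]
      have := mul_pos hc hSpos
      linarith
    nlinarith
  refine ⟨s0, hs0.1, fun a k => GFin_dis_N P B hB0 _ (hs0.2 a k), ?_⟩
  intro a b v hv hov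
  have := hs0UC a b v hv hov
  rw [hs0.1]
  exact this

/-- the finite set of pairs of overlapping edges -/
theorem pairs_finite {d : ℕ} {M : Matrix (Fin d) (Fin d) ℤ} (P : PD M) (D : ℝ) :
    {t : Fin d × Fin d × (Fin d → ℤ) | P.N (rv t.2.2) ≤ D ∧
      0 < P.OV (0, t.1) (t.2.2, t.2.1)}.Finite := by
  have hL : ∀ i, P.ell i ≤ ∑ j, P.ell j := fun i =>
    Finset.single_le_sum (fun j _ => (P.ell_pos j).le) (Finset.mem_univ i)
  refine ((Set.finite_univ (α := Fin d)).prod ((Set.finite_univ (α := Fin d)).prod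
    (window_finite P D (∑ j, P.ell j)))).subset ?_
  rintro ⟨a, b, v⟩ ⟨h1, h2⟩
  exact ⟨Set.mem_univ _, Set.mem_univ _, h1, CBlk_ht_le P hL h2⟩

theorem few_changes {m : ℕ} (M : Matrix (Fin (m+1)) (Fin (m+1)) ℤ)
    (hnn : ∀ i j, 0 ≤ M i j) (hM : PisotMat M) :
    ∃ L n₀ : ℕ, ∀ l : List (Fin (m+1) → List (Fin (m+1))), (∀ τ ∈ l, inc τ = M) →
      n₀ ≤ l.length → ∃ S : Fin (m+1) → List (Fin (m+1)), inc S = M ^ l.length ∧
        (∀ a, (S a).length = (compList l a).length ∧ ham (S a) (compList l a) ≤ L) ∧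
        SemiConjToral S := by
  classical
  obtain ⟨lam, u, hlam, hu, husum⟩ := exists_u M hnn hM
  obtain ⟨P, -, -⟩ := exists_PD M hnn hM lam hlam u hu husum
  have hdet : IsUnit M.det := by
    rcases hM.2.1 with h | h <;> rw [h] <;> simp
  obtain ⟨BT, hBT⟩ : ∃ BT : ℝ, BT = P.c * ∑ i, ∑ j, (M i j : ℝ) := ⟨_, rfl⟩
  have hBT0 : 0 ≤ BT := by rw [hBT]; exact mul_nonneg P.c_pos.le (JFin_sum_pos P hnn).le
  have hr : 0 < 1 - P.rho := by linarith [P.rho_lt]
  have hTT : ∀ τ : Fin (m+1) → List (Fin (m+1)), inc τ = M →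
      inc τ = M ∧ ∀ a k, P.N (rv (ab ((τ a).take k))) ≤ BT := by
    intro τ hτ
    refine ⟨hτ, fun a k => ?_⟩
    rw [hBT]
    exact JFin_BT P hnn τ hτ a k
  obtain ⟨BC, hBC⟩ : ∃ BC : ℝ, BC = BT / (1 - P.rho) + ∑ a, P.N (rv (ev a)) := ⟨_, rfl⟩
  have hBC0 : 0 ≤ BC := by
    rw [hBC]
    exact add_nonneg (div_nonneg hBT0 hr.le) (Finset.sum_nonneg fun a _ => P.N_nonneg _)
  have hpreC : ∀ l : List (Fin (m+1) → List (Fin (m+1))), (∀ τ ∈ l, inc τ = M) →
      ∀ a k, P.N (rv (ab ((compList l a).take k))) ≤ BC := by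
    intro l hl a k
    refine (compList_prefix P l BT hBT0 (fun τ hτ => hTT τ (hl τ hτ)) a k).trans ?_
    rw [hBC]
    have := Finset.single_le_sum (f := fun a => P.N (rv (ev a)))
      (fun a _ => P.N_nonneg _) (Finset.mem_univ a)
    linarith
  obtain ⟨B, hB0, hgood⟩ := exists_good M hnn P
  obtain ⟨BS, hBS⟩ : ∃ BS : ℝ, BS = BC + (B + BC) := ⟨_, rfl⟩
  have hBS0 : 0 ≤ BS := by rw [hBS]; linarith
  obtain ⟨D, hD⟩ : ∃ D : ℝ, D = (16 * P.c ^ 2 + 4) * BS + 2 * BT / (1 - P.rho) := ⟨_, rfl⟩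
  have hDBS : (16 * P.c ^ 2 + 4) * BS ≤ D := by
    rw [hD]
    have : 0 ≤ 2 * BT / (1 - P.rho) := div_nonneg (by linarith) hr.le
    linarith
  have hDBT : 2 * BT ≤ (1 - P.rho) * D := by
    have h1 : 2 * BT / (1 - P.rho) ≤ D := by
      rw [hD]
      have : 0 ≤ (16 * P.c ^ 2 + 4) * BS := mul_nonneg (by positivity) hBS0
      linarith
    rw [div_le_iff₀ hr] at h1
    linarith
  obtain ⟨n0, hn0, hgD⟩ := hgood D
  have hrho : ∀ᶠ n : ℕ in Filter.atTop, P.rho ^ n ≤ 1 / 2 := by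
    have h := tendsto_pow_atTop_nhds_zero_of_lt_one P.rho_nonneg P.rho_lt
    exact (h.eventually (gt_mem_nhds (show (0:ℝ) < 1/2 by norm_num))).mono fun n hn => hn.le
  obtain ⟨n1, hn1⟩ := Filter.eventually_atTop.mp hrho
  obtain ⟨m0, hm0⟩ : ∃ m0 : ℕ, m0 = max n0 n1 := ⟨_, rfl⟩
  have hm00 : n0 ≤ m0 := by rw [hm0]; exact le_max_left _ _
  have hm01 : n1 ≤ m0 := by rw [hm0]; exact le_max_right _ _
  obtain ⟨s, hs, hsB, hsH⟩ := hgD m0 hm00
  have hWfin := pairs_finite P D
  obtain ⟨W, hW⟩ : ∃ W : Finset (Fin (m+1) × Fin (m+1) × (Fin (m+1) → ℤ)),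
      W = hWfin.toFinset := ⟨_, rfl⟩
  refine ⟨(∑ c, (s c).length) * (W.card + W.card), m0, fun l hl hlen => ?_⟩
  -- split
  have hl1 : ∀ τ ∈ l.take m0, inc τ = M := fun τ h => hl τ (List.mem_of_mem_take h)
  have hl2 : ∀ τ ∈ l.drop m0, inc τ = M := fun τ h => hl τ (List.mem_of_mem_drop h)
  obtain ⟨g, hg⟩ : ∃ g, g = compList (l.take m0) := ⟨_, rfl⟩
  obtain ⟨h, hh⟩ : ∃ h, h = compList (l.drop m0) := ⟨_, rfl⟩
  have hgh : compList l = comp g h := by
    rw [hg, hh, ← compList_append, List.take_append_drop]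
  have hginc : inc g = M ^ m0 := by
    rw [hg, inc_compList M _ hl1, List.length_take, min_eq_left hlen]
  have hhinc : inc h = M ^ (l.length - m0) := by
    rw [hh, inc_compList M _ hl2, List.length_drop]
  have hOv : P.OvTo h D D := by
    rw [hh]
    exact JList_ovTo P _ BT D (fun τ hτ => hTT τ (hl2 τ hτ)) hDBT
  have hpos : ∀ t : Fin (m+1) × Fin (m+1) × (Fin (m+1) → ℤ), ∃ kl : ℕ × ℕ, t ∈ W →
      ∃ (hk : kl.1 < (h t.1).length) (hl : kl.2 < (h t.2.1).length),
        0 < P.OV (0 + ab ((h t.1).take kl.1), (h t.1)[kl.1])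
          ((inc h).mulVec t.2.2 + ab ((h t.2.1).take kl.2), (h t.2.1)[kl.2]) ∧
        P.N (rv (((inc h).mulVec t.2.2 + ab ((h t.2.1).take kl.2)) -
          (0 + ab ((h t.1).take kl.1)))) ≤ D := by
    intro t
    by_cases ht : t ∈ W
    · rw [hW, Set.Finite.mem_toFinset] at ht
      obtain ⟨e, he, f, hf, h1, h2⟩ := hOv t.1 t.2.1 t.2.2 ht.1 ht.2
      obtain ⟨k, hk, rfl⟩ := mem_edges.1 he
      obtain ⟨k', hk', rfl⟩ := mem_edges.1 hf
      exact ⟨(k, k'), fun _ => ⟨hk, hk', h1, h2⟩⟩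
    · exact ⟨(0, 0), fun h => absurd h ht⟩
  choose kl hkl using hpos
  obtain ⟨marks, hmarks⟩ : ∃ marks : Finset ℕ,
      marks = W.image (fun t => (kl t).1) ∪ W.image (fun t => (kl t).2) := ⟨_, rfl⟩
  have hmcard : marks.card ≤ W.card + W.card := by
    rw [hmarks]
    exact (Finset.card_union_le _ _).trans
      (Nat.add_le_add Finset.card_image_le Finset.card_image_le)
  obtain ⟨χ, hχ⟩ : ∃ χ : ℕ → Bool, χ = fun i => decide (i ∈ marks) := ⟨_, rfl⟩
  have hslen : ∀ c, (s c).length = (g c).length := by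
    intro c
    have h1 := GBad_length hs c
    have h2 := GBad_length hginc c
    have h3 : ((s c).length : ℤ) = (g c).length := by rw [h1, h2]
    exact_mod_cast h3
  obtain ⟨S, hS⟩ : ∃ S : Fin (m+1) → List (Fin (m+1)), S = fun a => mix s g χ (h a) := ⟨_, rfl⟩
  have hSinc' : inc S = M ^ m0 * inc h := by
    ext i j
    have := congrFun (ab_mix hs hginc (h j) χ) i
    simp only [ab] at this
    simp only [inc, hS]
    rw [this, Matrix.mul_apply]
    rfl
  have hSinc : inc S = M ^ l.length := by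
    rw [hSinc', hhinc, ← pow_add, Nat.add_sub_cancel' hlen]
  refine ⟨S, hSinc, ?_, ?_⟩
  · intro a
    have hc : compList l a = ext g (h a) := by rw [hgh]; rfl
    rw [hc, hS]
    refine ⟨mix_length hslen _ _, ?_⟩
    refine (mix_ham hslen (∑ c, (s c).length) (fun c => ?_) (h a) χ).trans ?_
    · rw [← hslen c]
      exact Finset.single_le_sum (f := fun c => (s c).length) (fun _ _ => Nat.zero_le _)
        (Finset.mem_univ c)
    · refine Nat.mul_le_mul_left _ ?_
      rw [hχ]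
      exact (sum_mark_le marks _).trans hmcard
  · have hpre : ∀ a j, P.N (rv (ab ((S a).take j))) ≤ BS := by
      intro a j
      rw [hS]
      obtain ⟨i, y, h1, h2⟩ := mix_take hs hginc (h a) χ j
      simp only
      rw [h1, rv_add]
      refine (P.N_add _ _).trans ?_
      have h3 := N_pow_mulVec P m0 (ab ((h a).take i))
      have h4 : P.N (rv (ab ((h a).take i))) ≤ BC := by rw [hh]; exact hpreC _ hl2 a i
      have h5 : P.rho ^ m0 * P.N (rv (ab ((h a).take i))) ≤ 1 * BC :=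
        mul_le_mul (pow_le_one₀ P.rho_nonneg P.rho_lt.le) h4 (P.N_nonneg _) zero_le_one
      have h6 : P.N (rv y) ≤ B + BC := by
        rcases h2 with rfl | ⟨c, k, rfl⟩ | ⟨c, k, rfl⟩
        · have := hsB 0 0
          rw [List.take_zero, ab_nil] at this
          linarith
        · have := hsB c k
          linarith
        · have : P.N (rv (ab ((g c).take k))) ≤ BC := by rw [hg]; exact hpreC _ hl1 c k
          linarith
      rw [hBS]
      linarith
    have hhit : P.Hit S D := by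
      intro a b v hv hO
      have htW : (a, b, v) ∈ W := by
        rw [hW, Set.Finite.mem_toFinset]
        exact ⟨hv, hO⟩
      obtain ⟨hk, hl', h1, h2⟩ := hkl (a, b, v) htW
      have hm1 : χ (kl (a, b, v)).1 = true := by
        rw [hχ]
        simp only [decide_eq_true_eq]
        rw [hmarks]
        exact Finset.mem_union_left _ (Finset.mem_image_of_mem (fun t => (kl t).1) htW)
      have hm2 : χ (kl (a, b, v)).2 = true := by
        rw [hχ]
        simp only [decide_eq_true_eq]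
        rw [hmarks]
        exact Finset.mem_union_right _ (Finset.mem_image_of_mem (fun t => (kl t).2) htW)
      simp only at hk hl' h1 h2
      obtain ⟨w, hw1, hw2⟩ := hsH _ _ _ h2 (by
        have := JComp_OV_translate P (0 + ab ((h a).take (kl (a, b, v)).1), (h a)[(kl (a, b, v)).1])
          ((inc h).mulVec v + ab ((h b).take (kl (a, b, v)).2), (h b)[(kl (a, b, v)).2])
        simp only at this
        rw [this]
        exact h1)
      have hA := mix_mem hs hginc (h a) χ 0 _ hk hm1 w hw1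
      rw [Matrix.mulVec_zero] at hA
      rw [hs] at hw2
      have hw3 : (w.1 - (M ^ m0).mulVec (((inc h).mulVec v + ab ((h b).take (kl (a, b, v)).2)) -
          (0 + ab ((h a).take (kl (a, b, v)).1))), w.2) ∈ edges 0 (s (h b)[(kl (a, b, v)).2]) := by
        have h3 := JComp_mem_translate (t := -(M ^ m0).mulVec (((inc h).mulVec v +
          ab ((h b).take (kl (a, b, v)).2)) - (0 + ab ((h a).take (kl (a, b, v)).1)))) hw2
        rw [add_neg_cancel] at h3
        rw [sub_eq_add_neg]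
        exact h3
      have hB' := mix_mem hs hginc (h b) χ ((inc h).mulVec v) _ hl' hm2 _ hw3
      refine ⟨_, by rw [hS]; exact hA, ?_⟩
      rw [hSinc', ← Matrix.mulVec_mulVec, hS]
      convert hB' using 2
      rw [Matrix.mulVec_sub]
      funext i
      simp only [Pi.add_apply, Pi.sub_apply]
      ring
    have h1l : 1 ≤ l.length := le_trans hn0 (le_trans hm00 hlen)
    refine JFin_semi (P.pow l.length h1l) (by rw [Matrix.det_pow]; exact hdet.pow _) BS D hBS0
      hDBS (hn1 _ (le_trans hm01 hlen)) 1 le_rfl S (by rw [pow_one]; exact hSinc) hpre ?_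
    intro a b v hv hO
    exact hhit a b v hv hO

end Pool.Agent.TH100.Pisot
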