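import Pool.Agent.H812R2.PI.JFin

/-!
Mixing two substitutions: in a word `w` some of the letters are replaced by their images under `f`
and all the others by their images under `g`.
-/

set_option autoImplicit false

namespace Pool.Agent.TH100.Pisot
open Pool.Agent.H812R2.PI
open scoped BigOperators
variable {d : ℕ}

/-- the word obtained from `w` when the marked letters are replaced by their images under `f` and
the others by their images under `g`; `χ i` tells whether the letter number `i` is marked -/
def mix (f g : Fin d → List (Fin d)) : (ℕ → Bool) → List (Fin d) → List (Fin d)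
  | _, [] => []
  | χ, c :: w => (if χ 0 = true then f c else g c) ++ mix f g (fun i => χ (i + 1)) w

theorem ab_mix {f g : Fin d → List (Fin d)} {A : Matrix (Fin d) (Fin d) ℤ} (hf : inc f = A)
    (hg : inc g = A) (w : List (Fin d)) :
    ∀ χ : ℕ → Bool, ab (mix f g χ w) = A.mulVec (ab w) := by
  induction w with
  | nil => intro χ; simp [mix, ab_nil]
  | cons c w ih =>
    intro χ
    rw [mix, ab_append, ih, ab_cons, Matrix.mulVec_add]
    congr 1
    split_ifs
    · rw [ab_subst, hf]
    · rw [ab_subst, hg]

theorem mix_mem {f g : Fin d → List (Fin d)} {A : Matrix (Fin d) (Fin d) ℤ} (hf : inc f = A)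
    (hg : inc g = A) (w : List (Fin d)) :
    ∀ (χ : ℕ → Bool) (z : Fin d → ℤ) (k : ℕ) (hk : k < w.length), χ k = true →
      ∀ h ∈ edges 0 (f w[k]),
        (h.1 + A.mulVec (z + ab (w.take k)), h.2) ∈ edges (A.mulVec z) (mix f g χ w) := by
  induction w with
  | nil => intro χ z k hk; simp at hk
  | cons c w ih =>
    intro χ z k hk hχ h hh
    rw [mix, edges_append]
    cases k with
    | zero =>
      rw [if_pos hχ]
      apply List.mem_append_left
      simp only [List.take_zero, ab_nil, add_zero]
      have h1 := JComp_mem_translate (t := A.mulVec z) hh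
      rw [zero_add] at h1
      exact h1
    | succ k =>
      apply List.mem_append_right
      have hite : A.mulVec z + ab (if χ 0 = true then f c else g c) = A.mulVec (z + ev c) := by
        rw [Matrix.mulVec_add]
        congr 1
        split_ifs
        · rw [ab_subst, hf]
        · rw [ab_subst, hg]
      rw [hite]
      have h1 := ih (fun i => χ (i + 1)) (z + ev c) k (by simpa using hk) hχ h (by simpa using hh)
      rw [List.take_succ_cons, ab_cons, ← add_assoc]
      exact h1

theorem mix_take {f g : Fin d → List (Fin d)} {A : Matrix (Fin d) (Fin d) ℤ} (hf : inc f = A)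
    (hg : inc g = A) (w : List (Fin d)) :
    ∀ (χ : ℕ → Bool) (j : ℕ), ∃ (i : ℕ) (y : Fin d → ℤ),
      ab ((mix f g χ w).take j) = A.mulVec (ab (w.take i)) + y ∧
        (y = 0 ∨ (∃ c k, y = ab ((f c).take k)) ∨ ∃ c k, y = ab ((g c).take k)) := by
  induction w with
  | nil => intro χ j; exact ⟨0, 0, by simp [mix, ab_nil], Or.inl rfl⟩
  | cons c w ih =>
    intro χ j
    rw [mix, List.take_append, ab_append]
    rcases le_total j (if χ 0 = true then f c else g c).length with hj | hj
    · rw [Nat.sub_eq_zero_of_le hj, List.take_zero, ab_nil, add_zero]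
      refine ⟨0, ab ((if χ 0 = true then f c else g c).take j), by simp [ab_nil], Or.inr ?_⟩
      split_ifs
      · exact Or.inl ⟨c, j, rfl⟩
      · exact Or.inr ⟨c, j, rfl⟩
    · rw [List.take_of_length_le hj]
      obtain ⟨i, y, h1, h2⟩ := ih (fun i => χ (i + 1))
        (j - (if χ 0 = true then f c else g c).length)
      refine ⟨i + 1, y, ?_, h2⟩
      rw [h1, List.take_succ_cons, ab_cons, Matrix.mulVec_add, add_assoc]
      congr 1
      split_ifs
      · rw [ab_subst, hf]
      · rw [ab_subst, hg]

/-- number of places where two words (of the same length) differ -/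
def ham (l l' : List (Fin d)) : ℕ := (l.zip l').countP (fun p => p.1 ≠ p.2)

theorem ham_append {l l' k k' : List (Fin d)} (h : l.length = l'.length) :
    ham (l ++ k) (l' ++ k') = ham l l' + ham k k' := by
  unfold ham
  rw [List.zip_append h, List.countP_append]

theorem ham_self (l : List (Fin d)) : ham l l = 0 := by
  unfold ham
  rw [List.countP_eq_zero]
  intro p hp
  have : p.1 = p.2 := by
    rw [List.mem_iff_getElem] at hp
    obtain ⟨i, hi, rfl⟩ := hp
    simp
  simp [this]

theorem ham_le (l l' : List (Fin d)) : ham l l' ≤ l'.length := by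
  unfold ham
  refine List.countP_le_length.trans ?_
  simp

theorem mix_length {f g : Fin d → List (Fin d)} (hfg : ∀ c, (f c).length = (g c).length)
    (w : List (Fin d)) : ∀ χ : ℕ → Bool, (mix f g χ w).length = (ext g w).length := by
  induction w with
  | nil => intro χ; simp [mix, ext]
  | cons c w ih =>
    intro χ
    rw [mix, ext_cons, List.length_append, List.length_append, ih]
    congr 1
    split_ifs
    · exact hfg c
    · rfl

theorem mix_ham {f g : Fin d → List (Fin d)} (hfg : ∀ c, (f c).length = (g c).length) (T : ℕ)
    (hT : ∀ c, (g c).length ≤ T) (w : List (Fin d)) : ∀ χ : ℕ → Bool,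
      ham (mix f g χ w) (ext g w) ≤
        T * ∑ i ∈ Finset.range w.length, (if χ i = true then 1 else 0) := by
  induction w with
  | nil => intro χ; simp [mix, ext, ham]
  | cons c w ih =>
    intro χ
    have hlen : (if χ 0 = true then f c else g c).length = (g c).length := by
      split_ifs
      · exact hfg c
      · rfl
    rw [mix, ext_cons, ham_append hlen, List.length_cons, Finset.sum_range_succ', mul_add]
    have h1 := ih (fun i => χ (i + 1))
    have h2 : ham (if χ 0 = true then f c else g c) (g c) ≤ T * (if χ 0 = true then 1 else 0) := by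
      split_ifs with h
      · rw [mul_one]
        exact (ham_le _ _).trans (hT c)
      · rw [ham_self]
        exact Nat.zero_le _
    calc _ ≤ T * (if χ 0 = true then 1 else 0) +
          T * ∑ i ∈ Finset.range w.length, (if χ (i + 1) = true then 1 else 0) :=
          Nat.add_le_add h2 h1
      _ = _ := by rw [add_comm]

theorem sum_mark_le (s : Finset ℕ) (n : ℕ) :
    ∑ i ∈ Finset.range n, (if (decide (i ∈ s)) = true then 1 else 0) ≤ s.card := by
  rw [← Finset.card_filter]
  apply Finset.card_le_card
  intro i hi
  simpa using (Finset.mem_filter.1 hi).2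

end Pool.Agent.TH100.Pisot
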